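import Pool.Agent.H831R3.MM.Sat2

/-!
# Exhaustive search is exactly optimal for disjunctions of conjunctions of `n`-bit tests

A CNF formula with `n` variables and `m` clauses is given by its incidence matrix, `2 n m` bits.
Trying all the assignments writes satisfiability as the disjunction of `2 ^ n` conjunctions of
tests (one for each clause), each of which reads `n` bits. Here it is shown that `2 ^ n` is exactly
the smallest possible number of conjunctions of tests that read at most `n` bits, if `m ≥ 2 n ^ 2`.
The tests may be arbitrary functions of the bits that they read, and their number is not bounded.
In particular every circuit of depth three (OR of ANDs of ORs, with any number of gates) for the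
satisfiability of these formulas whose bottom gates have at most `n` inputs has top fan-in at least
`2 ^ n`. In other words: if a proof of satisfiability is verified by tests, each of which may depend
on the whole proof, but reads only `n` bits of the formula, then there is no set of fewer than
`2 ^ n` proofs which is enough for all satisfiable formulas.

For tests that read `k` bits we get the lower bound `2 ^ n * (number of surjections) / k ^ m`, and,
when there are more clauses (`n = r s` and `m = r 2 ^ s`), the lower bound `2 ^ n / k ^ (n / s)`,
which is `2 ^ ((1 - ε) n)` as long as `k ≤ 2 ^ (ε s) = (m / r) ^ ε`.

Proof: a conjunction of tests which read `k` bits, and which rejects all proper subsets of the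
members of a family of `m`-element sets, accepts at most `k ^ m` members of the family.
-/

set_option autoImplicit false

namespace Pool.Agent.Results.MP_c62aed_lc.ExactSearch

open Pool.Agent.H831R3.MM

/-- `Scheme m n t k`: the satisfiability of CNF formulas with `n` variables and `m` clauses (given
by the incidence matrix) is the disjunction of `t` conjunctions of tests that read at most `k` bits
each. -/
theorem result :
    (∀ m n : ℕ, 1 ≤ n → 2 * n ^ 2 ≤ m → IsLeast {t | Scheme m n t n} (2 ^ n)) ∧
    (∀ m n t k : ℕ, Scheme m n t k →
      2 ^ n * Fintype.card {f : Fin m → Fin n // Function.Surjective f} ≤ t * k ^ m) ∧
    (∀ r s t k : ℕ, 1 ≤ s → Scheme (r * 2 ^ s) (r * s) t k → 2 ^ (r * s) ≤ t * k ^ r) :=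
  sat_main

end Pool.Agent.Results.MP_c62aed_lc.ExactSearch
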