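import Pool.Agent.H429R4.KS.Main
import Pool.Agent.H429R4.KS.Symm

/-!
# The strong exponential time hypothesis for circuits with few wirings up to sign changes

Negating some letters of a formula does not change whether it is satisfiable. A sign change turns
the wiring of a gate of a circuit (the input bit that it reads, and the multiset of the labelled
functions on the wires that enter it) into a transform of the wiring. For a circuit that is
symmetric under all sign changes the number of all transforms of the wirings is at most the number
of gates (`Pool.Agent.H429R4.KS.numWirings_le_size`); trying all assignments is such a circuit, with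
`2 ^ n` times a polynomial many gates. In general no symmetry is assumed, and the gates may compute
arbitrary functions of unbounded fan-in, with values in an arbitrary set.

We show that for every `δ > 0` there is `k` such that the circuits with at most `2 ^ ((1 - δ) n)`
transforms of wirings cannot tell satisfiable `k`-CNF formulas with `n` letters from formulas for
which no assignment does essentially better than a random one, not even on average over a
distribution that does not depend on the circuit.
-/

namespace Pool.Agent.Results.MP_c62aed_lc.FewWirings

open Finset
open Pool.Agent.H525R2.Sym (Clause Satisfiable numTrue bits)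
open Pool.Agent.H429R4.Sem (Circuit)
open Pool.Agent.H429R4.KS

open Classical in
/-- **SETH for circuits with few wirings up to sign changes.**
For all `δ, ε, η > 0` there are `k` and `K` such that for every finite set `V` of letters and every
group `Γ` of at least `K` sign changes there are two samples `(φ ω)`, `(ψ ω)` of `k`-CNF formulas,
indexed by the same nonempty finite set: the formulas `φ ω` are satisfiable, no assignment makes
more than the fraction `1 - (1 - ε) / 2 ^ k` of the clauses of `ψ ω` true, and `φ ω` and `ψ ω` have
the same positive number of clauses, at most `K |V|`. For every circuit such that the number of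
different transforms of the wirings of its gates under `Γ` is at most `|Γ| ^ (1 - δ)`, the fractions
of the formulas accepted (in any sense: output in a set `acc`) in the two samples differ by at most
`η`. -/
theorem result {δ ε η : ℝ} (hδ : 0 < δ) (hε : 0 < ε) (hη : 0 < η) :
    ∃ k K : ℕ, ∀ (V : Type) [Fintype V] [DecidableEq V] (Γ : AddSubgroup (V → ZMod 2)),
      K ≤ Nat.card Γ →
      ∃ (Ω : Type) (_ : Fintype Ω) (_ : Nonempty Ω) (φ ψ : Ω → Finset (Clause V)),
        (∀ ω, IsKCNF k (φ ω) ∧ IsKCNF k (ψ ω) ∧ (φ ω).card = (ψ ω).card ∧
          0 < (ψ ω).card ∧ (ψ ω).card ≤ K * Fintype.card V ∧ Satisfiable (φ ω) ∧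
          ∀ α, (numTrue α (ψ ω) : ℝ) ≤ (1 - (1 - ε) / 2 ^ k) * (ψ ω).card) ∧
        ∀ (D L : Type) (C : Circuit (Clause V) D L) (acc : Set D),
          (numWirings k C Γ : ℝ) ≤ (Nat.card Γ : ℝ) ^ (1 - δ) →
          |((univ.filter fun ω => C.output (bits (φ ω)) ∈ acc).card : ℝ) -
            (univ.filter fun ω => C.output (bits (ψ ω)) ∈ acc).card| ≤ η * Fintype.card Ω :=
  indistinguishable hδ hε hη

end Pool.Agent.Results.MP_c62aed_lc.FewWirings
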