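import Pool.Agent.H274R3.ETH.Sep

set_option autoImplicit false

/-!
# For how many oracles can exhaustive search be improved?

Relative to an oracle `A` the role of CNF-SAT is played by the search problems given by a verifier
`V` in `FP^A`; the instances `y` with `n` variables (solutions of length `n`) may have any length.
The set of oracles relative to which all these problems are solved in time `2 ^ ((1 - δ) n)` times
a polynomial in the length of the instance is measured by gauges `f` (the weight of an initial
segment `σ` is `2 ^ (f |σ| - |σ|)`; for `f = 0` one gets the Lebesgue null sets). The exact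
threshold is `f N ≤ 2 ^ ((log N) ^ ε)`, infinitely often, for every `ε`, also for nonuniform
nondeterministic algorithms for the instances without solution, and it is the same as the one for
the much smaller set of oracles with `PSPACE^A` reducible to `A`. For a certain gauge the
exceptional set is a null set, but the set of the oracles for which the instances of length
polynomial in `n` are solved in time `2 ^ (o(n))` is not. So relative to some oracle SETH holds (even
for nonuniform nondeterministic algorithms) although ETH fails: the reduction of SETH to ETH (the
sparsification lemma) does not relativize.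

Idea. If `f` is small at `N`, one takes `n` about `log log N` and instances of length `m`, where
`m` is a small power of `2 ^ n`. The solutions of the instance `y` are the strings `w` for which `n`
strings extending `y w` are all in the oracle. The probability that an algorithm with time
`2 ^ ((1 - δ) n) poly (m) ≤ 2 ^ (n - 1)` recognises all instances without solution is less
than `exp (- 2 ^ (m - n - 5))`, which makes up for the factor `2 ^ (f N)`.
-/

namespace Pool.Agent.Results.MP_c62aed_lc.OracleSize

open Pool.Agent.NPC Pool.Agent.H620R2.Gauge Pool.Agent.H274R3.ETH Filter

/-- The exact gauge threshold for the set of oracles relative to which exhaustive search can be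
improved, and the comparison with the exponential time hypothesis. -/
theorem result :
    (∀ f : ℕ → ℝ,
      (Null f {A : Oracle | SETHFails A} ↔
        ∀ ε : ℝ, 0 < ε → ∃ᶠ N : ℕ in atTop, f N ≤ 2 ^ (Real.logb 2 N) ^ ε) ∧
      (∀ O : Set Oracle, {A : Oracle | ∀ L, IsPSPACE A L → Reduces L {x | A x = true}} ⊆ O →
        O ⊆ {A : Oracle | NUSETHFails A} →
        (Null f O ↔
          ∀ ε : ℝ, 0 < ε → ∃ᶠ N : ℕ in atTop, f N ≤ 2 ^ (Real.logb 2 N) ^ ε)) ∧
      {A : Oracle | ∀ L, IsPSPACE A L → Reduces L {x | A x = true}} ⊆
        {A : Oracle | SETHFails A} ∧
      {A : Oracle | SETHFails A} ⊆ {A : Oracle | NUSETHFails A}) ∧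
    (∃ f : ℕ → ℝ, Null f {A : Oracle | NUSETHFails A} ∧
      ¬ Null f {A : Oracle | StrongETHFails A}) ∧
    ∃ A : Oracle, StrongETHFails A ∧ ¬ NUSETHFails A :=
  ⟨mainS, ⟨fS, sep⟩, exists_oracle⟩

end Pool.Agent.Results.MP_c62aed_lc.OracleSize
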