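import Mathlib
import Pool.Agent.H538R2.SBFinal

/-!
# A SETH-strength lower bound for branching with arbitrary splitting predicates

Every branching (splitting) algorithm for satisfiability builds, on an unsatisfiable formula `F`, a
tree whose inner nodes ask questions about the assignment and whose leaves point to clauses of `F`
which are falsified.  The classical trees ask for the values of variables.  Here the questions come
from a library of predicates which is fixed before `F`:

* any predicate which is the XOR of a constant and of members of a set `L` of at most `2 ^ (δ n)`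
  arbitrary predicates, with no bound on the number of questions of this kind (with `L` = the
  monomials of degree at most `γ n` these are all polynomials of degree at most `γ n` modulo 2, in
  particular all parities of variables);
* the members of a set `Q` of at most `2 ^ (2 ^ (δ n))` arbitrary predicates (for instance all
  functions computed by circuits with `2 ^ (γ n)` gates), at most `2 ^ (δ n)` of them on every path.

A leaf has to name at most `2 ^ (δ n)` clauses of `F`, one of which is false at every assignment
that reaches the leaf.  For every `ε > 0` and every `c` there is `δ > 0` such that for all large `n`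
and all such libraries there is an unsatisfiable formula `F` with `n` variables for which all these
trees have more than `(2 - ε) ^ n * |F| ^ c` leaves: the running time `(2 - ε) ^ n * poly |F|` cannot
be reached by branching, whatever the predicates are.
-/

set_option autoImplicit false

namespace Pool.Agent.Results.MP_c62aed_lc.SplittingPredicates

open Pool.Agent.H538R2.SB

theorem result (ε : ℝ) (hε0 : 0 < ε) (hε2 : ε < 2) (c : ℕ) :
    ∃ δ : ℝ, 0 < δ ∧ ∃ n₀ : ℕ, ∀ n : ℕ, n₀ ≤ n →
      ∀ L Q : Finset ((Fin n → Bool) → Bool),
        (L.card : ℝ) ≤ (2 : ℝ) ^ (δ * n) → (Q.card : ℝ) ≤ (2 : ℝ) ^ ((2 : ℝ) ^ (δ * n)) →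
        ∃ F : Finset (Clause n), (∀ x : Asg n, ∃ C ∈ F, FalseAt C x) ∧
          ∀ T : BTree n, T.Uses (xorSpan L ∪ (Q : Set ((Fin n → Bool) → Bool))) →
            (∀ x, (T.cost (xorSpan L) x : ℝ) ≤ (2 : ℝ) ^ (δ * n)) →
            (∀ x, T.out x ⊆ F ∧ ((T.out x).card : ℝ) ≤ (2 : ℝ) ^ (δ * n) ∧
              ∃ C ∈ T.out x, FalseAt C x) →
            (2 - ε) ^ n * (cnfSize F : ℝ) ^ c < (T.leaves : ℝ) :=
  main_bound ε hε0 hε2 c

end Pool.Agent.Results.MP_c62aed_lc.SplittingPredicates
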